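import Pool.Agent.R154.CookieRank
import Pool.Agent.Results.MP_c8e9c8_co.ArithmeticProgressions

/-!
# The cookie game: the winning components of a strict position form a block
-/

set_option autoImplicit false

namespace Pool.Agent.Results.MP_900844_co.WinningBlock

open Pool.Agent.R154.Cookie
open Pool.Agent.Results.MP_c8e9c8_co.ArithmeticProgressions (move grundy Simp mem_move
  simp_move grundy_simple)

/-- The positions of type `𝒫`: no move (the selection of a positive heap) leads to a position of
type `𝒫`. -/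
def IsP (X : Multiset ℕ) : Prop := ∀ x, ∀ _ : x ∈ X, 0 < x → ¬ IsP (move X x)
termination_by Multiset.card X
decreasing_by
  rw [move, Multiset.card_map]
  exact Multiset.card_erase_lt_of_mem (by assumption)

lemma isP_iff (X : Multiset ℕ) : IsP X ↔ ∀ x ∈ X, 0 < x → ¬ IsP (move X x) := by
  rw [IsP]

lemma card_move {X : Multiset ℕ} {x : ℕ} (h : x ∈ X) : (move X x).card + 1 = X.card := by
  rw [move, Multiset.card_map, Multiset.card_erase_add_one h]

lemma isP_grundy (N : ℕ) : ∀ X : Multiset ℕ, X.card = N → (IsP X ↔ grundy X = 0) := by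
  induction N with
  | zero =>
    intro X h
    rw [Multiset.card_eq_zero] at h
    subst h
    rw [isP_iff, grundy]
    constructor
    · intro _
      exact Nat.le_zero.mp (Nat.sInf_le fun x hx => absurd hx (Multiset.notMem_zero x))
    · intro _ x hx
      exact absurd hx (Multiset.notMem_zero x)
  | succ N ih =>
    intro X h
    have hm : ∀ x ∈ X, (IsP (move X x) ↔ grundy (move X x) = 0) := fun x hx =>
      ih _ (by have := card_move hx; omega)
    rw [isP_iff, grundy]
    have hne : ({v : ℕ | ∀ x, ∀ _ : x ∈ X, 0 < x → grundy (move X x) ≠ v}).Nonempty := by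
      have hfin : ((X.map fun x => grundy (move X x)).toFinset : Set ℕ).Finite :=
        Finset.finite_toSet _
      obtain ⟨v, hv⟩ := hfin.infinite_compl.nonempty
      refine ⟨v, fun x hx _ he => hv ?_⟩
      simp only [Multiset.mem_toFinset, Finset.mem_coe, Multiset.mem_map]
      exact ⟨x, hx, he⟩
    constructor
    · intro h
      exact Nat.le_zero.mp (Nat.sInf_le fun x hx h0 he => h x hx h0 ((hm x hx).mpr he))
    · intro h x hx h0 hP
      have h1 := Nat.sInf_mem hne
      have h2 : sInf {v : ℕ | ∀ x, ∀ _ : x ∈ X, 0 < x → grundy (move X x) ≠ v} = 0 := h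
      rw [h2] at h1
      exact h1 x hx h0 ((hm x hx).mp hP)

/-- The statement for positions without repeated heaps. -/
lemma simple_mid {X : Multiset ℕ} {D a b c : ℕ} (h : Simp X (D + 1)) (ha : a ∈ X) (hb : b ∈ X)
    (hc : c ∈ X) (h0 : 0 < a) (hab : a < b) (hbc : b < c) (wa : IsP (move X a))
    (wc : IsP (move X c)) : IsP (move X b) := by
  have key : ∀ x ∈ X, (IsP (move X x) ↔ val (opt (fun y => y ∈ X) x D 0) = 0) := by
    intro x hx
    rw [isP_grundy _ _ rfl]
    have e : grundy (move X x) = val (opt (fun y => y ∈ X) x D 0) := by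
      have h1 := grundy_simple D (move X x) (simp_move h)
      rw [h1]
      congr 1
      exact st_congr D 0 fun y hy => mem_move h y hy
    rw [e]
  rw [key a ha] at wa
  rw [key c hc] at wc
  rw [key b hb]
  exact val_mid (P := fun y => y ∈ X) ha hb hc h0 hab hbc (h.2 c hc) wa wc

/-- Two positions with `N` heaps that have the same heaps of size less than `N`. -/
def Dep (N : ℕ) (X Y : Multiset ℕ) : Prop :=
  X.card = N ∧ Y.card = N ∧ X.filter (· < N) = Y.filter (· < N)

lemma dep_symm {N : ℕ} {X Y : Multiset ℕ} (h : Dep N X Y) : Dep N Y X := ⟨h.2.1, h.1, h.2.2.symm⟩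

lemma dep_move {N : ℕ} {X Y : Multiset ℕ} (h : Dep (N + 1) X Y) {x y : ℕ} (hx : x ∈ X)
    (hy : y ∈ Y) (hxy : x = y ∨ (N + 1 ≤ x ∧ N + 1 ≤ y)) : Dep N (move X x) (move Y y) := by
  obtain ⟨h1, h2, h3⟩ := h
  have c1 := card_move hx
  have c2 := card_move hy
  refine ⟨by omega, by omega, ?_⟩
  rcases Nat.eq_zero_or_pos N with rfl | hN
  · rw [Multiset.card_eq_zero.mp (show (move X x).card = 0 by omega),
      Multiset.card_eq_zero.mp (show (move Y y).card = 0 by omega)]
  · have h4 : (X.erase x).filter (· < N + 1) = (Y.erase y).filter (· < N + 1) := by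
      rw [← Multiset.cons_erase hx, ← Multiset.cons_erase hy] at h3
      by_cases hlt : x < N + 1
      · have e : x = y := by omega
        subst e
        rw [Multiset.filter_cons_of_pos (p := fun x => x < N + 1) _ hlt,
          Multiset.filter_cons_of_pos (p := fun x => x < N + 1) _ hlt] at h3
        exact (Multiset.cons_inj_right x).mp h3
      · rw [Multiset.filter_cons_of_neg (p := fun x => x < N + 1) _ hlt,
          Multiset.filter_cons_of_neg (p := fun x => x < N + 1) _ (show ¬ y < N + 1 by omega)] at h3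
        exact h3
    unfold move
    rw [Multiset.filter_map, Multiset.filter_map]
    have h5 : ∀ Z : Multiset ℕ, Z.filter ((fun z => z < N) ∘ fun y => y - 1) =
        Z.filter (· < N + 1) := by
      intro Z
      apply Multiset.filter_congr
      intro z _
      simp only [Function.comp]
      omega
    rw [h5, h5, h4]

lemma dep_exists {N : ℕ} {X Y : Multiset ℕ} (h : Dep N X Y) {x : ℕ} (hx : x ∈ X) (hN : N ≤ x) :
    ∃ y ∈ Y, N ≤ y := by
  obtain ⟨h1, h2, h3⟩ := h
  by_contra hcon
  push Not at hcon
  have h4 : Y.filter (· < N) = Y := Multiset.filter_eq_self.mpr hcon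
  have h5 : (X.filter (· < N)).card = X.card := by rw [h3, h4]; omega
  have h6 := Multiset.eq_of_le_of_card_le (Multiset.filter_le (· < N) X) h5.ge
  have h7 := (Multiset.filter_eq_self.mp h6) x hx
  omega

lemma dep_isP (N : ℕ) : ∀ X Y : Multiset ℕ, Dep N X Y → IsP Y → IsP X := by
  induction N with
  | zero =>
    intro X Y h _
    rw [isP_iff]
    intro x hx
    rw [Multiset.card_eq_zero.mp h.1] at hx
    exact absurd hx (Multiset.notMem_zero x)
  | succ N ih =>
    intro X Y h hY
    rw [isP_iff] at hY ⊢
    intro x hx h0 hP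
    by_cases hlt : x < N + 1
    · have hy : x ∈ Y := by
        have : x ∈ X.filter (· < N + 1) := Multiset.mem_filter.mpr ⟨hx, hlt⟩
        rw [h.2.2] at this
        exact (Multiset.mem_filter.mp this).1
      exact hY x hy h0 (ih _ _ (dep_symm (dep_move h hx hy (Or.inl rfl))) hP)
    · obtain ⟨y, hy, hy2⟩ := dep_exists h hx (by omega)
      exact hY y hy (by omega) (ih _ _ (dep_symm (dep_move h hx hy (Or.inr ⟨by omega, hy2⟩))) hP)

/-- The winning components form a block, three-point form. -/
lemma mid (X : Multiset ℕ) (h1 : ∀ x ∈ X, 0 < x) (h2 : ∀ x, x ≠ X.card → X.count x ≤ 1)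
    {a b c : ℕ} (ha : a ∈ X) (hb : b ∈ X) (hc : c ∈ X) (hab : a < b) (hbc : b < c)
    (wa : IsP (move X a)) (wc : IsP (move X c)) : IsP (move X b) := by
  obtain ⟨N, hN⟩ : ∃ N, X.card = N + 1 :=
    ⟨X.card - 1, by have := Multiset.card_pos_iff_exists_mem.mpr ⟨a, ha⟩; omega⟩
  rw [hN] at h2
  by_cases hbN : N + 1 ≤ b
  · exact dep_isP N _ _ (dep_move (N := N) (X := X) (Y := X) ⟨hN, hN, rfl⟩ hb hc
      (Or.inr ⟨hbN, by omega⟩)) wc
  push Not at hbN
  -- the position with the same small heaps and distinct large heaps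
  set j := (X.filter (fun z => ¬ z < N + 1)).card with hj
  set Z : Multiset ℕ := (Multiset.range j).map fun i => N + 1 + i with hZ
  set Y : Multiset ℕ := X.filter (· < N + 1) + Z with hY
  have hZmem : ∀ z ∈ Z, N + 1 ≤ z ∧ z < N + 1 + j := by
    intro z hz
    obtain ⟨i, hi, rfl⟩ := Multiset.mem_map.mp hz
    have := Multiset.mem_range.mp hi
    omega
  have hXY : Dep (N + 1) X Y := by
    refine ⟨hN, ?_, ?_⟩
    · rw [hY, Multiset.card_add, hZ, Multiset.card_map, Multiset.card_range, hj,
        ← Multiset.card_add, Multiset.filter_add_not]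
      exact hN
    · rw [hY, Multiset.filter_add, Multiset.filter_filter]
      have e : Z.filter (· < N + 1) = 0 := by
        rw [Multiset.filter_eq_nil]
        intro z hz
        have := hZmem z hz
        omega
      rw [e, add_zero]
      apply Multiset.filter_congr
      intro z _
      exact ⟨fun h => ⟨h, h⟩, fun h => h.1⟩
  have hS : Simp Y (N + 1 + j + 1) := by
    constructor
    · intro y hy
      rw [hY, Multiset.count_add]
      by_cases hlt : y < N + 1
      · have e1 : Z.count y = 0 := by
          rw [Multiset.count_eq_zero]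
          intro hz
          have := hZmem y hz
          omega
        rw [e1, add_zero]
        exact (Multiset.count_le_of_le y (Multiset.filter_le _ X)).trans (h2 y (by omega))
      · have e1 : (X.filter (· < N + 1)).count y = 0 := by
          rw [Multiset.count_eq_zero]
          intro hz
          have := (Multiset.mem_filter.mp hz).2
          omega
        rw [e1, zero_add]
        apply Multiset.nodup_iff_count_le_one.mp
        exact (Multiset.nodup_range j).map (fun i j hij => by simpa using hij)
    · intro y hy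
      rw [hY, Multiset.mem_add] at hy
      rcases hy with hy | hy
      · have := (Multiset.mem_filter.mp hy).2
        omega
      · have := hZmem y hy
        omega
  have hsmall : ∀ x ∈ X, x < N + 1 → x ∈ Y := by
    intro x hx hlt
    rw [hY, Multiset.mem_add]
    exact Or.inl (Multiset.mem_filter.mpr ⟨hx, hlt⟩)
  have hYa := hsmall a ha (by omega)
  have hYb := hsmall b hb (by omega)
  have wa' : IsP (move Y a) :=
    dep_isP N _ _ (dep_symm (dep_move hXY ha hYa (Or.inl rfl))) wa
  have hc' : ∃ c' ∈ Y, b < c' ∧ IsP (move Y c') := by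
    by_cases hcN : c < N + 1
    · exact ⟨c, hsmall c hc hcN, hbc,
        dep_isP N _ _ (dep_symm (dep_move hXY hc (hsmall c hc hcN) (Or.inl rfl))) wc⟩
    · push Not at hcN
      obtain ⟨c', hc1, hc2⟩ := dep_exists hXY hc hcN
      exact ⟨c', hc1, by omega,
        dep_isP N _ _ (dep_symm (dep_move hXY hc hc1 (Or.inr ⟨hcN, hc2⟩))) wc⟩
  obtain ⟨c', hc1, hc2, wc'⟩ := hc'
  exact dep_isP N _ _ (dep_move hXY hb hYb (Or.inl rfl))
    (simple_mid hS hYa hYb hc1 (h1 a ha) hab hc2 wa' wc')

theorem result (X : Multiset ℕ) (h1 : ∀ x ∈ X, 0 < x)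
    (h2 : ∀ x, x ≠ X.card → X.count x ≤ 1) :
    ∃ lo hi : ℕ, ∀ x ∈ X, (IsP (move X x) ↔ lo ≤ x ∧ x ≤ hi) := by
  classical
  set S : Finset ℕ := X.toFinset.filter fun x => IsP (move X x) with hS
  have hmem : ∀ x, x ∈ S ↔ x ∈ X ∧ IsP (move X x) := by
    intro x
    rw [hS, Finset.mem_filter, Multiset.mem_toFinset]
  by_cases hne : S.Nonempty
  · refine ⟨S.min' hne, S.max' hne, fun x hx => ?_⟩
    constructor
    · intro h
      have hxS := (hmem x).mpr ⟨hx, h⟩
      exact ⟨S.min'_le x hxS, S.le_max' x hxS⟩
    · rintro ⟨h3, h4⟩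
      obtain ⟨ha, wa⟩ := (hmem _).mp (S.min'_mem hne)
      obtain ⟨hc, wc⟩ := (hmem _).mp (S.max'_mem hne)
      rcases Nat.lt_or_eq_of_le h3 with h3 | h3
      · rcases Nat.lt_or_eq_of_le h4 with h4 | h4
        · exact mid X h1 h2 ha hx hc h3 h4 wa wc
        · rw [h4]; exact wc
      · rw [← h3]; exact wa
  · refine ⟨1, 0, fun x hx => ?_⟩
    constructor
    · intro h
      exact absurd ⟨x, (hmem x).mpr ⟨hx, h⟩⟩ hne
    · rintro ⟨h3, h4⟩
      omega

end Pool.Agent.Results.MP_900844_co.WinningBlock
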